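import Mathlib
import Pool.Agent.H424.GA.Theta

/-!
# Greenberg's conjecture for most components, for almost all primes

Let `p ≥ 5`. The even characters `θ` of conductor `N` or `N p`, `p` prime to `N`, are the `ψ ω^m` with a primitive
character `ψ` modulo `f`, `f ∣ N`, and `m` modulo `p - 1` with `ψ(-1) = (-1)^m`. For `1 ≤ m ≤ p - 2` and `p` prime to
`f φ(f)` the eigenspace `X_θ` is zero as soon as `B_{m,ψ} / m` is a unit (at the place given by the embedding of the
values of `ψ` into the `p`-adic numbers): by Herbrand's theorem the eigenspace of `θ⁻¹ ω` of the class group of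
`ℚ(ζ_{fp})` is zero, so that of `θ` is zero by Leopoldt's reflection theorem, and then `X_θ = 0` as the primes above
`p` do not contribute to this eigenspace.

The definitions are in `Pool/Agent/H424/GA/Theta.lean`: `IsTheta p ψ m` says that `ψ` is a primitive character modulo
`f`, that `p` does not divide `f φ(f)` and that `1 ≤ m ≤ p - 2`, `ψ(-1) = (-1)^m`; `UnitIn B ψ m` says that
`B_{m,ψ} / m` is a unit of the valuation ring `B`.

We show that for almost all primes `p` there are few `B_{m,ψ} / m`, `f m ≤ W`, which are not units at a place above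
`p`, simultaneously for all `W`. The set `nonUnits p W B` of these pairs `(ψ, m)` is defined in `Theta.lean`, too.

Proof. For fixed `f` and `m` the product of the `f^m (m+1)! ∑ ψ(a) B_m(a/f)` over all the primitive `ψ` modulo `f` of
the right parity is an integer, not zero by the functional equation, and bounded by `(2 f m)^(2 f m)`. As `p` is not
ramified in the field of the values of the characters, this integer is divisible by `p` to the power of the number of
the factors which are not units at the place.
-/

set_option autoImplicit false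

namespace Pool.Agent.Results.MP_c2a07f_nt.AlmostAllFewExceptions

open Filter Topology Pool.Agent.H424.GA

/-- For every valuation ring `B` of the complex numbers in which `p` is not a unit (the places above `p`) and for
all `W ≥ 1` at most `Φ(p) W² (1 + log W)⁴ / p` of the `B_{m,ψ} / m` with `f m ≤ W` are not units of `B`. -/
def Good (Φ : ℕ → ℝ) (p : ℕ) : Prop :=
  ∀ B : ValuationSubring ℂ, B.valuation (p : ℂ) < 1 →
    ∀ W : ℕ, 1 ≤ W → (nonUnits p W B).Finite ∧
      ((nonUnits p W B).ncard : ℝ) ≤ Φ p * ((W : ℝ) ^ 2 * (1 + Real.log W) ^ 4) / p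

/-- Almost all primes `p` (relative density one) have the property `Good`. -/
theorem result (Φ : ℕ → ℝ) (hΦ : Tendsto Φ atTop atTop) :
    Tendsto (fun X : ℕ => (({p : ℕ | p ≤ X ∧ p.Prime ∧ Good Φ p}.ncard : ℕ) : ℝ) /
      (({p : ℕ | p ≤ X ∧ p.Prime}.ncard : ℕ) : ℝ)) atTop (𝓝 1) := by
  apply Few.tendsto
  refine (few_two Φ hΦ).mono ⟨0, ?_⟩
  intro p hp _ h2 B hB W hW
  obtain ⟨hc1, hc2⟩ := count (W := W) hp hB
  refine ⟨hc1, le_trans ?_ (h2 W hW)⟩
  exact_mod_cast hc2

end Pool.Agent.Results.MP_c2a07f_nt.AlmostAllFewExceptions
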