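import Mathlib
import Pool.Agent.H424.GA.Theta

/-!
# Greenberg's conjecture for infinitely many components of exponent up to a power of p, for almost all primes

Let `p ≥ 5`. The even characters `θ` of conductor `N` or `N p`, `p` prime to `N`, are the `ψ ω^m` with a primitive
character `ψ` modulo `f`, `f ∣ N`, and `m` modulo `p - 1` with `ψ(-1) = (-1)^m`. For `1 ≤ m ≤ p - 2` and `p` prime to
`f φ(f)` the eigenspace `X_θ` is zero as soon as `B_{m,ψ} / m` is a unit (at the place given by the embedding of the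
values of `ψ` into the `p`-adic numbers): by Herbrand's theorem the eigenspace of `θ⁻¹ ω` of the class group of
`ℚ(ζ_{fp})` is zero, so that of `θ` is zero by Leopoldt's reflection theorem, and then `X_θ = 0` as the primes above
`p` do not contribute to this eigenspace.

The definitions are in `Pool/Agent/H424/GA/Theta.lean`: `IsTheta p ψ m` says that `ψ` is a primitive character modulo
`f`, that `p` does not divide `f φ(f)` and that `1 ≤ m ≤ p - 2`, `ψ(-1) = (-1)^m`; `UnitIn B ψ m` says that
`B_{m,ψ} / m` is a unit of the valuation ring `B`.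

We show that for almost all primes `p` the numbers `B_{m,ψ} / m` with `f = N ℓ^K`, `ℓ = 2` or `3`, are units at all
the places above `p` for all `K` and all `N`, `m` with `m³ N⁵ (log p)⁸ ≤ p`.

Proof. If `ℓ^K ≥ m N³ (log p)⁴` this is the theorem on conductors `N ℓ^K` in `FiveAndPowersOfThree`, as the `ℓ`-part
of `p² - 1` is at most `(log p)²` for almost all `p`. For the other `K` we use that the product of the
`f^m (m+1)! ∑ ψ(a) B_m(a/f)` over all the primitive `ψ` modulo `f` of the right parity is an integer, not zero by the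
functional equation, and bounded by `(2 f m)^(2 f m)`.
-/

set_option autoImplicit false

namespace Pool.Agent.Results.MP_c2a07f_nt.AlmostAllTowers

open Filter Topology Pool.Agent.H424.GA

/-- For every valuation ring `B` of the complex numbers in which `p` is not a unit (the places above `p`)
`B_{m,ψ} / m` is a unit of `B` if `f = N ℓ^K` with `ℓ = 2` or `ℓ = 3`, any `K` and `m³ N⁵ (log p)⁸ ≤ p`. -/
def Good (p : ℕ) : Prop :=
  ∀ B : ValuationSubring ℂ, B.valuation (p : ℂ) < 1 →
    ∀ (f m : ℕ) (ψ : DirichletCharacter ℂ f), IsTheta p ψ m → ∀ ℓ N K : ℕ, ℓ = 2 ∨ ℓ = 3 → f = N * ℓ ^ K →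
      (Real.log p) ^ 8 * ((m : ℝ) ^ 3 * (N : ℝ) ^ 5) ≤ p → UnitIn B ψ m

/-- Almost all primes `p` (relative density one) have the property `Good`. -/
theorem result :
    Tendsto (fun X : ℕ => (({p : ℕ | p ≤ X ∧ p.Prime ∧ Good p}.ncard : ℕ) : ℝ) /
      (({p : ℕ | p ≤ X ∧ p.Prime}.ncard : ℕ) : ℝ)) atTop (𝓝 1) := by
  apply Few.tendsto
  have h := ((few_RR 2 (Or.inl rfl)).and (few_RR 3 (Or.inr rfl))).and
      ((few_three 2 le_rfl).and (few_three 3 (by norm_num)))
  refine h.mono ⟨5, ?_⟩
  rintro p hp h5 ⟨⟨hR2, hR3⟩, h32, h33⟩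
  have hlog : 1 ≤ Real.log p := by
    rw [Real.le_log_iff_exp_le (by exact_mod_cast hp.pos)]
    have := Real.exp_one_lt_d9
    have h6 : (5 : ℝ) ≤ p := by exact_mod_cast h5
    linarith
  intro B hB f m ψ hθ ℓ N K hℓ hf hsize
  exact towers hp h5 hlog hR2 hR3 h32 h33 hB f m ψ hθ ℓ N K hℓ hf hsize

end Pool.Agent.Results.MP_c2a07f_nt.AlmostAllTowers
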